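import Pool.Agent.Helper59.FL2.ComplOf
import Pool.Agent.Helper41.FL2.V4
import Pool.Agent.Helper41.FL2.RR
import Pool.Agent.Helper61.FL2.ES
import Pool.Agent.Helper71.FL2.Cons

/-!
# FL2-C7 and FL2-D3, from the statement of C6
-/

open CategoryTheory MonoidalCategory Opposite HomotopicalAlgebra

set_option autoImplicit false

namespace Helper59.FL2

open FL

/-- The statement of module C6. -/
def StepHyp (n : ℕ) : Prop := ∀ (j : ℕ) (X : SP (Th n)), Sg n X →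
      Sg n ((RR (Th n)).obj ((KJ n j).obj X)) ∧
      (j < n → Cj n j ((RR (Th n)).obj ((KJ n j).obj X))) ∧
      (∀ j', j < j' → Cj n j' X → Cj n j' ((RR (Th n)).obj ((KJ n j).obj X))) ∧
      ES n n ((KJ n j).η X ≫ (RR (Th n)).η ((KJ n j).obj X))

theorem objHoEq_id {n : ℕ} {X : SP (Th n)} : ObjHoEq (𝟙 X) := fun a =>
  Pool.Agent.Helper88.FL.hoEq_of_isIso ((𝟙 X : X ⟶ X).app a)

theorem objKan_of_injFib {n : ℕ} {X : SP (Th n)} (hX : InjFib X) : ObjKan X :=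
  Pool.Agent.Helper46.FLb.InjFib.objKan (fun X {_} hZ => Pool.Agent.Helper83.FL4.Mp_kan X hZ) hX

theorem Cp_isCat_step {n : ℕ} (h : StepHyp n) {A : SP (Th n)}
    (hS : Sg n ((RR (Th n)).obj A)) :
    IsCat n ((Cp n n).obj A) ∧ ∃ e : (RR (Th n)).obj A ⟶ (Cp n n).obj A,
      (RR (Th n)).η A ≫ e = (Cp n n).η A ∧ ES n n e :=
  Cp_isCat_of (fun {j X} hX => h j X hX) Helper41FL2.isCat_iff
    (fun {_ _ _} hY hZ {_ _} hX hf hg => Pool.Agent.Helper61.FL2.ES_comp hY hZ hX hf hg)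
    (fun {_ _} hX hY {_} hf => Pool.Agent.Helper61.FL2.ES_of_objHoEq hX hY hf)
    objHoEq_id hS

theorem ES_loc_step {n : ℕ} (h : StepHyp n) {X Y Z : SP (Th n)} (hX : Sg n X) (hY : Sg n Y)
    (hZ : IsCat n Z) {f : X ⟶ Y} (hf : ES n n f) : Loc Z f :=
  ES_loc_of objKan_of_injFib Helper41FL2.RR_injFib Helper41FL2.RR_objHoEq
    (fun {_ _} hX hY {_} hf => Helper41FL2.sg_of_objHoEq hX hY hf)
    (fun _ hS => Cp_isCat_step h hS) Helper41FL2.isCat_iff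
    (fun {_ _ _} hY hZ {_ _} hX hf hg => Pool.Agent.Helper61.FL2.ES_comp hY hZ hX hf hg)
    (fun {_ _} hX hY {_} hf => Pool.Agent.Helper61.FL2.ES_of_objHoEq hX hY hf)
    (fun {_ _ _} hX hY hZ {_ _} hf hfg => Pool.Agent.Helper61.FL2.ES_of_comp_left hX hY hZ hf hfg)
    (fun {_ _} hX hY {_} hf => Pool.Agent.Helper71.FL2.ES_objHoEq hX hY hf) hX hY hZ hf

end Helper59.FL2
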