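import Pool.Agent.Helper59.FL2.ComplStep
import Pool.Agent.Helper41.FL2.C6Dep
import Pool.Agent.Helper37.FL2.GoodV

/-!
# FL2-C7: the completion theorem
-/

open CategoryTheory

set_option autoImplicit false

namespace Helper59.FL2

open FL

theorem stepHyp (n : ℕ) : StepHyp n := fun _ _ hX =>
  Helper41FL2.KJ_step_of (Helper41FL2.stepDep_of Pool.Agent.Helper37.FL2.goodFr_Tfr) hX

theorem Cp_isCat {n : ℕ} {A : SP (Th n)} (hA : ObjKan A) (hS : Sg n ((RR (Th n)).obj A)) :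
    IsCat n ((Cp n n).obj A) ∧
    ∃ e : (RR (Th n)).obj A ⟶ (Cp n n).obj A, (RR (Th n)).η A ≫ e = (Cp n n).η A ∧ ES n n e :=
  Cp_isCat_step (stepHyp n) hS

end Helper59.FL2
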