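import Pool.Agent.Helper58.FL2.Flag2
import Pool.Agent.Helper91.FL2.RETR
import Pool.Agent.Helper85.FL.FL3

/-!
# The completion theorem, and locality of essentially surjective, fully faithful maps

These are the deductions of `Cp_isCat` and `ES_loc` from the facts they rest on, which are
explicit hypotheses here.
-/

open CategoryTheory MonoidalCategory Opposite HomotopicalAlgebra

set_option autoImplicit false

namespace Helper59.FL2

open FL

/-- Completeness maps of level `j` exist only for `j < n`. -/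
theorem lt_of_isComplJ {n j : ℕ} {X Y : SP (Th n)} {f : X ⟶ Y} (h : IsComplJ n j f) :
    j < n := by
  induction h with
  | base n => exact Nat.succ_pos n
  | susp f h ih => exact Nat.succ_lt_succ ih

/-- Completeness at levels `≥ n` is vacuous. -/
theorem cj_of_le {n j : ℕ} (h : n ≤ j) (X : SP (Th n)) : Cj n j X :=
  fun _ _ _ hf => absurd (lt_of_isComplJ hf) (Nat.not_lt.mpr h)

section Compl

variable {n : ℕ}

/-- The completion theorem, from its ingredients. -/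
theorem Cp_isCat_of
    (KJ_step : ∀ {j : ℕ} {X : SP (Th n)}, Sg n X →
      Sg n ((RR (Th n)).obj ((KJ n j).obj X)) ∧
      (j < n → Cj n j ((RR (Th n)).obj ((KJ n j).obj X))) ∧
      (∀ j', j < j' → Cj n j' X → Cj n j' ((RR (Th n)).obj ((KJ n j).obj X))) ∧
      ES n n ((KJ n j).η X ≫ (RR (Th n)).η ((KJ n j).obj X)))
    (isCat_iff : ∀ {X : SP (Th n)}, IsCat n X ↔ Sg n X ∧ ∀ j, Cj n j X)
    (ES_comp : ∀ {X Y Z : SP (Th n)}, InjFib Y → InjFib Z → ∀ {f : X ⟶ Y} {g : Y ⟶ Z},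
      InjFib X → ES n n f → ES n n g → ES n n (f ≫ g))
    (ES_of_objHoEq : ∀ {X Y : SP (Th n)}, InjFib X → InjFib Y → ∀ {f : X ⟶ Y},
      ObjHoEq f → ES n n f)
    (hid : ∀ {X : SP (Th n)}, ObjHoEq (𝟙 X))
    {A : SP (Th n)} (hS : Sg n ((RR (Th n)).obj A)) :
    IsCat n ((Cp n n).obj A) ∧ ∃ e : (RR (Th n)).obj A ⟶ (Cp n n).obj A,
      (RR (Th n)).η A ≫ e = (Cp n n).η A ∧ ES n n e := by
  have key : ∀ d : ℕ, d ≤ n → Sg n ((Cp n d).obj A) ∧
      (∀ j, n - d ≤ j → Cj n j ((Cp n d).obj A)) ∧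
      ∃ e : (RR (Th n)).obj A ⟶ (Cp n d).obj A,
        (RR (Th n)).η A ≫ e = (Cp n d).η A ∧ ES n n e := by
    intro d
    induction d with
    | zero =>
      intro _
      refine ⟨hS, fun j hj => cj_of_le (by omega) _, 𝟙 _, ?_, ?_⟩
      · exact Category.comp_id _
      · exact ES_of_objHoEq hS.1 hS.1 hid
    | succ d ih =>
      intro hd
      obtain ⟨h1, h2, e, he, hE⟩ := ih (by omega)
      obtain ⟨k1, k2, k3, k4⟩ := KJ_step (j := n - 1 - d) h1
      refine ⟨k1, ?_, e ≫ (KJ n (n - 1 - d)).η _ ≫ (RR (Th n)).η _, ?_, ?_⟩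
      · intro j hj
        rcases Nat.eq_or_lt_of_le (show n - 1 - d ≤ j by omega) with h | h
        · subst h
          exact k2 (by omega)
        · exact k3 j h (h2 j (by omega))
      · rw [← Category.assoc, he]
        exact (Category.assoc _ _ _).symm
      · exact ES_comp h1.1 k1.1 hS.1 hE k4
  obtain ⟨h1, h2, h3⟩ := key n le_rfl
  exact ⟨isCat_iff.mpr ⟨h1, fun j => h2 j (by omega)⟩, h3⟩

/-- Essentially surjective and fully faithful maps are local, from the ingredients. -/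
theorem ES_loc_of
    (objKan : ∀ {X : SP (Th n)}, InjFib X → ObjKan X)
    (RR_injFib : ∀ {X : SP (Th n)}, ObjKan X → InjFib ((RR (Th n)).obj X))
    (RR_objHoEq : ∀ {X : SP (Th n)}, ObjKan X → ObjHoEq ((RR (Th n)).η X))
    (sg_of_objHoEq : ∀ {X Y : SP (Th n)}, InjFib X → InjFib Y → ∀ {f : X ⟶ Y},
      ObjHoEq f → (Sg n X ↔ Sg n Y))
    (Cp_isCat : ∀ {A : SP (Th n)}, ObjKan A → Sg n ((RR (Th n)).obj A) →
      IsCat n ((Cp n n).obj A) ∧ ∃ e : (RR (Th n)).obj A ⟶ (Cp n n).obj A,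
        (RR (Th n)).η A ≫ e = (Cp n n).η A ∧ ES n n e)
    (isCat_iff : ∀ {X : SP (Th n)}, IsCat n X ↔ Sg n X ∧ ∀ j, Cj n j X)
    (ES_comp : ∀ {X Y Z : SP (Th n)}, InjFib Y → InjFib Z → ∀ {f : X ⟶ Y} {g : Y ⟶ Z},
      InjFib X → ES n n f → ES n n g → ES n n (f ≫ g))
    (ES_of_objHoEq : ∀ {X Y : SP (Th n)}, InjFib X → InjFib Y → ∀ {f : X ⟶ Y},
      ObjHoEq f → ES n n f)
    (ES_of_comp_left : ∀ {X Y Z : SP (Th n)}, InjFib X → InjFib Y → InjFib Z →
      ∀ {f : X ⟶ Y} {g : Y ⟶ Z}, ES n n f → ES n n (f ≫ g) → ES n n g)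
    (ES_objHoEq : ∀ {X Y : SP (Th n)}, IsCat n X → IsCat n Y → ∀ {f : X ⟶ Y},
      ES n n f → ObjHoEq f)
    {X Y Z : SP (Th n)} (hX : Sg n X) (hY : Sg n Y) (hZ : IsCat n Z) {f : X ⟶ Y}
    (hf : ES n n f) : Loc Z f := by
  have key : ∀ {W : SP (Th n)}, Sg n W →
      IsCat n ((Cp n n).obj W) ∧ ES n n ((Cp n n).η W) := by
    intro W hW
    have hK := objKan hW.1
    have hR := RR_injFib hK
    have hS : Sg n ((RR (Th n)).obj W) := (sg_of_objHoEq hW.1 hR (RR_objHoEq hK)).mp hW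
    obtain ⟨h1, e, he, hE⟩ := Cp_isCat hK hS
    refine ⟨h1, ?_⟩
    rw [← he]
    exact ES_comp hR h1.inj hW.1 (ES_of_objHoEq hW.1 hR (RR_objHoEq hK)) hE
  obtain ⟨x1, x2⟩ := key hX
  obtain ⟨y1, y2⟩ := key hY
  obtain ⟨z1, z2⟩ := key (isCat_iff.mp hZ).1
  have h1 : ES n n ((Cp n n).η X ≫ (Cp n n).map f) := by
    rw [← (Cp n n).η_naturality f]
    exact ES_comp hY.1 y1.inj hX.1 hf y2
  have h2 : ES n n ((Cp n n).map f) := ES_of_comp_left hX.1 x1.inj y1.inj x2 h1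
  exact Pool.Agent.Helper91.FL2.loc_of_SFun (Cp n n) f hZ.inj z1.inj (ES_objHoEq hZ z1 z2)
    fun a => Helper85FL.we_of_hoEq (ES_objHoEq x1 y1 h2 a)

end Compl

end Helper59.FL2
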