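import Pool.Agent.Helper59.FL2.Compl

/-!
# FL2-D3: maps that are essentially surjective and fully faithful are local
-/

open CategoryTheory

set_option autoImplicit false

namespace Helper59.FL2

open FL

theorem ES_loc {n : ℕ} {X Y Z : SP (Th n)} (hX : Sg n X) (hY : Sg n Y) (hZ : IsCat n Z)
    {f : X ⟶ Y} (hf : ES n n f) : Loc Z f :=
  ES_loc_step (stepHyp n) hX hY hZ hf

end Helper59.FL2
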